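import Pool.Agent.Work.MP_859ada_lc.Bd.B02

/-!
# MP_859ada_lc: the class of the languages which reduce to ROOT
-/

set_option autoImplicit false

namespace Pool.Agent.Work.MP_859ada_lc

open Polynomial Pool.Agent.PT Turing Pool.Agent.Work.MP_46935e_lc

/-! ### Polynomial time -/

theorem ptf_of_R {R : List Bool × List Bool → Bool}
    (h : Nonempty (TM2ComputableInPolyTime encPair (fun b : Bool => [b]) R)) : PTF R :=
  ptf_of_tm2 (d := fun l => l.headD false) h ptf_encPair (PTF.id.headD (PTF.const false))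
    (fun _ => rfl)

theorem R_of_ptf {R : List Bool × List Bool → Bool} (h : PTF R) :
    Nonempty (TM2ComputableInPolyTime encPair (fun b : Bool => [b]) R) :=
  tm2_of_ptf h (ptf_dec2 PTF.id) dec2_encPair (PTF.cons PTF.id (PTF.const []))

theorem ptf_of_E {E : List Bool × List Bool → List (List Gate)}
    (h : Nonempty (TM2ComputableInPolyTime encPair encSys E)) : PTF E :=
  ptf_of_tm2 (d := decSys) h ptf_encPair (by fun_prop) decSys_encSys

theorem E_of_ptf {E : List Bool × List Bool → List (List Gate)} (h : PTF E) :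
    Nonempty (TM2ComputableInPolyTime encPair encSys E) :=
  tm2_of_ptf h (ptf_dec2 PTF.id) dec2_encPair (by fun_prop)

theorem ptf_of_f {f : List Bool → List Bool}
    (h : Nonempty (TM2ComputableInPolyTime (fun s : List Bool => s) (fun s : List Bool => s) f)) :
    PTF f :=
  ptf_of_tm2 (d := fun l => l) h PTF.id PTF.id (fun _ => rfl)

section
variable {α : Type} [Enc α]

@[fun_prop]
theorem PTF.nOf {l : α → List (List Gate)} (hl : PTF l) : PTF (fun a => nOf (l a)) :=
  ptf_nOf.comp hl

@[fun_prop]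
theorem PTF.sgBlock {n i : α → ℕ} {h : α → List Gate} (hn : PTF n) (hi : PTF i) (hh : PTF h) :
    PTF (fun a => sgBlock (n a) (i a) (h a)) := by
  unfold MP_859ada_lc.sgBlock
  fun_prop

theorem PTF.sgA {n r s : α → ℕ} {hs : α → ℕ → List Gate} (hn : PTF n) (hr : PTF r) (hs' : PTF s)
    (hh : PTF (fun p : α × ℕ => hs p.1 p.2)) :
    PTF (fun a => sgA (n a) (r a) (s a) (hs a)) := by
  unfold MP_859ada_lc.sgA
  fun_prop

@[fun_prop]
theorem PTF.sgX {r : α → ℕ} (hr : PTF r) : PTF (fun a => sgX (r a)) := by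
  unfold MP_859ada_lc.sgX
  fun_prop

@[fun_prop]
theorem PTF.sgE {n t s : α → ℕ} {h : α → List Gate} (hn : PTF n) (ht : PTF t) (hs : PTF s)
    (hh : PTF h) : PTF (fun a => sgE (n a) (t a) (s a) (h a)) := by
  unfold MP_859ada_lc.sgE
  fun_prop

@[fun_prop]
theorem PTF.sgP {n t s : α → ℕ} {h : α → List Gate} (hn : PTF n) (ht : PTF t) (hs : PTF s)
    (hh : PTF h) : PTF (fun a => sgP (n a) (t a) (s a) (h a)) := by
  unfold MP_859ada_lc.sgP
  fun_prop

@[fun_prop]
theorem PTF.signSys {E P : α → List (List Gate)} (hE : PTF E) (hP : PTF P) :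
    PTF (fun a => signSys (E a) (P a)) := by
  unfold MP_859ada_lc.signSys
  have h1 : PTF (fun a => MP_859ada_lc.sgA (MP_859ada_lc.nOf (E a ++ P a))
      ((E a).length + (P a).length) ((E a).length + (P a).length + 3)
      (fun i => (E a ++ P a).getD i [])) :=
    PTF.sgA (hs := fun a i => (E a ++ P a).getD i []) (by fun_prop) (by fun_prop) (by fun_prop)
      (by fun_prop)
  have h2 : PTF (fun a => MP_859ada_lc.sgA (MP_859ada_lc.nOf (E a ++ P a))
      ((E a).length + (P a).length) ((E a).length + (P a).length + 4)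
      (fun i => (E a ++ P a).getD i [])) :=
    PTF.sgA (hs := fun a i => (E a ++ P a).getD i []) (by fun_prop) (by fun_prop) (by fun_prop)
      (by fun_prop)
  fun_prop

end

/-! ### The three classes coincide -/

theorem oneReal_of_red {L : List Bool → Prop} (h : Red L ROOTL) : OneReal L := by
  obtain ⟨f, hf, hL⟩ := h
  have hf' := ptf_of_f hf
  have hf1 : PTF (fun q : List Bool × List Bool => f q.1) := hf'.comp PTF.fst
  refine ⟨0, fun q => (decide (encProg (decProg (f q.1)) = f q.1) &&
    decide (decProg (f q.1) ≠ [])) && wfb 1 (decProg (f q.1)),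
    fun q => [decProg (f q.1)], fun _ => [], R_of_ptf (by fun_prop), E_of_ptf (by fun_prop),
    E_of_ptf (PTF.const _), fun x => ?_⟩
  rw [hL]
  simp only [eval_zero, Nat.le_zero, List.length_eq_zero_iff, exists_eq_left,
    List.mem_singleton, forall_eq, List.not_mem_nil, false_implies, forall_const, and_true,
    Bool.and_eq_true, decide_eq_true_eq, wfb_iff]
  constructor
  · rintro ⟨p, hp, h1, h2, z, hz⟩
    rw [hp, decProg_encProg]
    refine ⟨⟨⟨rfl, h1⟩, h2⟩, z, ?_⟩
    have h3 := value_map ((aeval z : ℤ[X] →ₐ[ℤ] ℝ) : ℤ[X] →+* ℝ) (fun _ => (X : ℤ[X])) p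
    simp only [RingHom.coe_coe, aeval_X] at h3
    rw [h3]
    exact hz
  · rintro ⟨⟨⟨h0, h1⟩, h2⟩, z, hz⟩
    refine ⟨decProg (f x), h0.symm, h1, h2, z, ?_⟩
    have h3 := value_map ((aeval z : ℤ[X] →ₐ[ℤ] ℝ) : ℤ[X] →+* ℝ) (fun _ => (X : ℤ[X]))
      (decProg (f x))
    simp only [RingHom.coe_coe, aeval_X] at h3
    rw [← h3]
    exact hz

theorem red_tri_of_oneReal {L : List Bool → Prop} (h : OneReal L) : Red L TRIL := by
  obtain ⟨p, R, E, P, hR, hE, hP, hL⟩ := h
  have hR' := ptf_of_R hR
  have hE' := ptf_of_E hE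
  have hP' := ptf_of_E hP
  have hst : PTF (fun q : List Bool × List Bool => (q.1, strip q.2)) := by fun_prop
  have hm : PTF (fun x : List Bool => p.eval x.length + 1) :=
    (ptf_eval p PTF.id.length).add (PTF.const 1)
  obtain ⟨F, hF, hLF⟩ := np_closure (P := L) (R := fun q => R (q.1, strip q.2))
    (hR'.comp hst) (S := fun q => signSys (E (q.1, strip q.2)) (P (q.1, strip q.2)))
    (PTF.signSys (hE'.comp hst) (hP'.comp hst)) hm (fun x => by
      rw [hL]
      constructor
      · rintro ⟨w, hw, h1, h2⟩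
        refine ⟨w ++ true :: List.replicate (p.eval x.length - w.length) false, ?_, ?_, ?_⟩
        · simp; omega
        · dsimp only
          rw [strip_pad]
          exact h1
        · dsimp only
          rw [strip_pad]
          exact (signSys_iff _ _).2 h2
      · rintro ⟨w, hw, h1, h2⟩
        refine ⟨strip w, ?_, h1, (signSys_iff _ _).1 h2⟩
        have := length_strip w
        omega)
  refine ⟨fun x => encSys (F x), PTF.tm2_raw (by fun_prop), fun x => ?_⟩
  rw [hLF]
  constructor
  · intro h1; exact ⟨_, rfl, h1⟩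
  · rintro ⟨l, hl, h1⟩
    dsimp only at hl
    have : F x = l := by rw [← decSys_encSys (F x), hl, decSys_encSys]
    rwa [this]

theorem not_root_one : ¬ ROOT [.one] := by
  rintro ⟨-, -, z, hz⟩
  simp [value, vals, Gate.val] at hz

theorem red_root_of_red_tri {L : List Bool → Prop} (h : Red L TRIL) : Red L ROOTL := by
  obtain ⟨f, hf, hL⟩ := h
  have hf' := ptf_of_f hf
  have h1 : PTF (fun x => triToRoot (decSys (f x))) := ptf_triToRoot.comp (by fun_prop)
  refine ⟨fun x => if encSys (decSys (f x)) = f x then encProg (triToRoot (decSys (f x)))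
    else encProg [.one], PTF.tm2_raw ?_, fun x => ?_⟩
  · exact PTF.ite (by fun_prop) (by fun_prop) (PTF.const _)
  rw [hL]
  dsimp only
  constructor
  · rintro ⟨l, hl, h2⟩
    rw [hl, decSys_encSys, if_pos rfl]
    exact ⟨_, rfl, (triToRoot_iff l).1 h2⟩
  · split_ifs with h3
    · rintro ⟨p, hp, h4⟩
      have : triToRoot (decSys (f x)) = p := by
        rw [← decProg_encProg (triToRoot (decSys (f x))), hp, decProg_encProg]
      rw [← this, ← triToRoot_iff] at h4
      exact ⟨_, h3.symm, h4⟩
    · rintro ⟨p, hp, h4⟩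
      have : [Gate.one] = p := by
        rw [← decProg_encProg [.one], hp, decProg_encProg]
      rw [← this] at h4
      exact absurd h4 not_root_one

/-- **The languages which reduce to ROOT.** -/
theorem red_iff (L : List Bool → Prop) :
    (Red L ROOTL ↔ Red L TRIL) ∧ (Red L ROOTL ↔ OneReal L) :=
  ⟨⟨fun h => red_tri_of_oneReal (oneReal_of_red h), red_root_of_red_tri⟩,
    ⟨oneReal_of_red, fun h => red_root_of_red_tri (red_tri_of_oneReal h)⟩⟩

/-! ### PosSLP -/

/-- The program for `1 - N`. -/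
def negP (p : List Gate) : List Gate :=
  [.one, .sub 0 0] ++ (copyB (p.length + 1) 1 2 (fun _ => .sub 0 0) p ++
    [.sub 0 (p.length + 2)])

theorem negP_value {A : Type*} [CommRing A] (p : List Gate) (x : ℕ → A) :
    value x (negP p) = 1 - value (fun _ => 0) p := by
  have hwf : WF 0 (negP p) := by
    rw [wf_iff]
    unfold negP
    rw [allAt_append, allAt_append, length_copyB (by omega)]
    simp only [allAt_cons, allAt_nil, Gate.Ok, and_true, List.length_cons, List.length_nil,
      Nat.zero_add]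
    exact ⟨⟨trivial, ⟨by omega, by omega⟩⟩, copyB_ok (by omega) (fun k => ⟨by omega, by omega⟩),
      ⟨by omega, by omega⟩⟩
  have hM := models_self hwf x
  have hl : (negP p).length = p.length + 4 := by
    unfold negP
    rw [List.length_append, List.length_append, length_copyB (by omega)]
    simp
    omega
  rw [value_eq_getD, hl]
  generalize hv : (fun i' => (vals x (negP p)).getD i' 0) = v at hM
  have hv' : ∀ i', (vals x (negP p)).getD i' 0 = v i' := fun i' => by rw [← hv]
  rw [hv']
  simp only [hv'] at hM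
  clear hv hv'
  unfold negP at hM
  rw [allAt_append, allAt_append, length_copyB (by omega)] at hM
  simp only [allAt_cons, allAt_nil, eqv_one, eqv_sub, and_true, Nat.zero_add,
    List.length_cons, List.length_nil, sub_self] at hM
  obtain ⟨⟨h1, h2⟩, h3, h4⟩ := hM
  have hV := copyB_value h3 h2 (by omega) (by omega) (x' := fun _ => 0) (fun _ => by
    rw [eqv_sub, sub_self])
  rw [show 1 + 1 = 2 by rfl] at h4 hV
  rw [show 2 + (p.length + 1) - 1 = p.length + 2 by omega] at hV
  rw [show 2 + (p.length + 1) = p.length + 4 - 1 by omega, h1, hV] at h4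
  exact h4

theorem value_wf0 {A : Type*} [CommRing A] {p : List Gate} (hp : WF 0 p) (x x' : ℕ → A) :
    value x p = value x' p := by
  refine value_congr fun k hk => ?_
  obtain ⟨i, hi, he⟩ := List.getElem_of_mem hk
  have h1 := hp i hi
  rw [he] at h1
  exact absurd h1 (Nat.not_lt_zero k)

theorem value_int_real (p : List Gate) :
    value (fun _ => (0 : ℝ)) p = ((value (fun _ => (0 : ℤ)) p : ℤ) : ℝ) := by
  have := value_map (Int.castRingHom ℝ) (fun _ => (0 : ℤ)) p
  simp only [map_zero] at this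
  rw [this]
  rfl

theorem oneReal_of_npPosSLP {L : List Bool → Prop} (h : NPPosSLP L) : OneReal L := by
  obtain ⟨p, R, Y, Z, hR, hY, hZ, hL⟩ := h
  have hR' := ptf_of_R hR
  have hY' := ptf_of_E hY
  have hZ' := ptf_of_E hZ
  have hneg : PTF (fun p : List Gate => negP p) := by
    unfold negP
    fun_prop
  have h1 : PTF (fun q : List Bool × List Bool => R q && (Y q).all (fun g => wfb 0 g)) :=
    hR'.and (PTF.all' (f := fun _ g => wfb 0 g) (by fun_prop) hY')
  have h2 : PTF (fun q : List Bool × List Bool =>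
      Y q ++ ((Z q).filter (fun g => wfb 0 g)).map (fun g => negP g)) :=
    hY'.append (PTF.map' (f := fun _ g => negP g) (hneg.comp PTF.snd)
      (PTF.filter' (f := fun _ g => wfb 0 g) (by fun_prop) hZ'))
  refine ⟨p, _, fun _ => [], _, R_of_ptf h1, E_of_ptf (PTF.const []), E_of_ptf h2,
    fun x => ?_⟩
  rw [hL]
  refine exists_congr fun w => and_congr_right fun _ => ?_
  simp only [Bool.and_eq_true, List.all_eq_true, wfb_iff, List.not_mem_nil, false_implies,
    forall_const, true_and, List.mem_append, List.mem_map, List.mem_filter]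
  rw [and_assoc]
  refine and_congr_right fun _ => ?_
  have hneg' : ∀ (g : List Gate) (z : ℝ), WF 0 g →
      (0 < value (fun _ => z) (negP g) ↔ ¬ PosSLP g) := by
    intro g z hg
    rw [negP_value, value_int_real]
    unfold PosSLP
    constructor
    · rintro h3 ⟨-, h4⟩
      have h5 : (1 : ℝ) ≤ ((value (fun _ => (0 : ℤ)) g : ℤ) : ℝ) := by exact_mod_cast h4
      linarith
    · intro h3
      have h4 : value (fun _ => (0 : ℤ)) g ≤ 0 := by
        by_contra hcon
        push Not at hcon
        exact h3 ⟨hg, hcon⟩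
      have h5 : ((value (fun _ => (0 : ℤ)) g : ℤ) : ℝ) ≤ 0 := by exact_mod_cast h4
      linarith
  have hpos : ∀ (g : List Gate) (z : ℝ), WF 0 g → (0 < value (fun _ => z) g ↔ PosSLP g) := by
    intro g z hg
    rw [value_wf0 hg (fun _ => z) (fun _ => 0), value_int_real]
    unfold PosSLP
    constructor
    · intro h3; exact ⟨hg, by exact_mod_cast h3⟩
    · rintro ⟨-, h3⟩; exact_mod_cast h3
  constructor
  · rintro ⟨h3, h4⟩
    refine ⟨fun g hg => (h3 g hg).1, 0, ?_⟩
    rintro q (hq | ⟨g, ⟨hg, hg2⟩, rfl⟩)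
    · exact (hpos q 0 (h3 q hq).1).2 (h3 q hq)
    · exact (hneg' g 0 hg2).2 (h4 g hg)
  · rintro ⟨h3, z, h4⟩
    refine ⟨fun g hg => (hpos g z (h3 g hg)).1 (h4 g (Or.inl hg)), fun g hg h5 => ?_⟩
    exact (hneg' g z h5.1).1 (h4 _ (Or.inr ⟨g, ⟨hg, h5.1⟩, rfl⟩)) h5

/-! ### NP -/

theorem red_refl (L : List Bool → Prop) : Red L L :=
  ⟨fun x => x, PTF.tm2_raw PTF.id, fun _ => Iff.rfl⟩

theorem inNP_of_red {L L' : List Bool → Prop} (h : Red L L') (h' : InNP L') : InNP L := by
  obtain ⟨f, hf, hL⟩ := h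
  obtain ⟨p, R, hR, hL'⟩ := h'
  have hf' := ptf_of_f hf
  have hR' := ptf_of_R hR
  have hf1 : PTF (fun q : List Bool × List Bool => f q.1) := hf'.comp PTF.fst
  have hB : PTF (fun x => p.eval (f x).length) := ptf_eval p hf'.length
  obtain ⟨p', hp'⟩ := exists_poly_of_ptf hB
  have h1 : PTF (fun q : List Bool × List Bool => R (f q.1, q.2) &&
      decide (q.2.length ≤ p.eval (f q.1).length)) :=
    (hR'.comp (hf1.pair PTF.snd)).and (PTF.snd.length.le (ptf_eval p hf1.length))
  refine ⟨p', _, R_of_ptf h1, fun x => ?_⟩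
  rw [hL, hL']
  refine exists_congr fun w => ?_
  dsimp only
  rw [Bool.and_eq_true, decide_eq_true_eq]
  constructor
  · rintro ⟨h2, h3⟩; exact ⟨h2.trans (hp' x), h3, h2⟩
  · rintro ⟨-, h3, h2⟩; exact ⟨h2, h3⟩

theorem inNP_iff : InNP ROOTL ↔ ∀ L, OneReal L → InNP L :=
  ⟨fun h L hL => inNP_of_red ((red_iff L).2.2 hL) h,
    fun h => h ROOTL ((red_iff ROOTL).2.1 (red_refl ROOTL))⟩

end Pool.Agent.Work.MP_859ada_lc
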