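import Mathlib

/-!
# MP_859ada_lc: definitions

Straight-line programs, the problems ROOT, TRI and PosSLP, their encodings by bit strings,
polynomial-time many-one reductions (by the polynomial-time Turing machines of Mathlib),
nondeterministic polynomial time with one real guess, and `NP` with an oracle for PosSLP.
-/

set_option autoImplicit false

namespace Pool.Agent.Work.MP_859ada_lc

open Polynomial Turing

/-! ### Straight-line programs -/

/-- The gates of a straight-line program: the constant `1`, a variable, and the sum, the
difference or the product of the results of the gates at the positions `i` and `j`. -/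
inductive Gate
  | one : Gate
  | var (k : ℕ) : Gate
  | add (i j : ℕ) : Gate
  | sub (i j : ℕ) : Gate
  | mul (i j : ℕ) : Gate
  deriving DecidableEq

/-- The value of a gate, given the values `x` of the variables and the list `l` of the values of
the previous gates (references which are out of range are read as `0`). -/
def Gate.val {A : Type*} [CommRing A] (x : ℕ → A) (l : List A) : Gate → A
  | .one => 1
  | .var k => x k
  | .add i j => l.getD i 0 + l.getD j 0
  | .sub i j => l.getD i 0 - l.getD j 0
  | .mul i j => l.getD i 0 * l.getD j 0

/-- The values of all gates. -/
def vals {A : Type*} [CommRing A] (x : ℕ → A) (p : List Gate) : List A :=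
  p.foldl (fun l g => l ++ [g.val x l]) []

/-- The value computed by a program: the value of its last gate. -/
def value {A : Type*} [CommRing A] (x : ℕ → A) (p : List Gate) : A :=
  (vals x p).getLastD 0

/-- The gate at position `k` is well formed: it refers to earlier gates or to one of the first
`n` variables. -/
def Gate.Ok (n k : ℕ) : Gate → Prop
  | .one => True
  | .var i => i < n
  | .add i j => i < k ∧ j < k
  | .sub i j => i < k ∧ j < k
  | .mul i j => i < k ∧ j < k

/-- Well formed straight-line programs in `n` variables. -/
def WF (n : ℕ) (p : List Gate) : Prop :=
  ∀ k (h : k < p.length), (p[k]).Ok n k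

/-- The problem ROOT: `p` is a well formed straight-line program in one variable, and the
polynomial in `ℤ[X]` computed by `p` has a real root. -/
def ROOT (p : List Gate) : Prop :=
  p ≠ [] ∧ WF 1 p ∧ ∃ x : ℝ, (value (fun _ => X) p : ℤ[X]).aeval x = 0

/-- The polynomial computed by `p` in the variable `j`, the variables `k < j` having the values
`y k` (and the variables `k > j` the value `0`). -/
noncomputable def polyAt {A : Type*} [CommRing A] (y : ℕ → A) (j : ℕ) (p : List Gate) : A[X] :=
  value (fun k => if k < j then C (y k) else if k = j then X else 0) p

/-- The problem TRI: the triangular system given by the programs `fs 0, fs 1, ...` has a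
nondegenerate real solution, that is, there are real numbers `y 0, y 1, ...` such that, for every
`j`, the polynomial `fs j (y 0, ..., y (j - 1), Y)` in `Y` is not zero and vanishes at `y j`. -/
def TRI (fs : List (List Gate)) : Prop :=
  ∃ y : ℕ → ℝ, ∀ j (h : j < fs.length),
    polyAt y j fs[j] ≠ 0 ∧ (polyAt y j fs[j]).eval (y j) = 0

/-- PosSLP: the integer computed by a well formed program without variables is positive. -/
def PosSLP (p : List Gate) : Prop := WF 0 p ∧ 0 < value (fun _ => (0 : ℤ)) p

/-! ### Encodings -/

/-- Codes of gates: the type and the two operands. -/
def Gate.code : Gate → ℕ × (ℕ × ℕ)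
  | .one => (0, 0, 0)
  | .var k => (1, k, 0)
  | .add i j => (2, i, j)
  | .sub i j => (3, i, j)
  | .mul i j => (4, i, j)

/-- A list of numbers as a bit string (each number in unary). -/
def encNums (l : List ℕ) : List Bool := l.flatMap (fun k => List.replicate k true ++ [false])

/-- A straight-line program as a bit string: three numbers (type, operands) for each gate. -/
def encProg (p : List Gate) : List Bool :=
  encNums (p.flatMap (fun g => [g.code.1, g.code.2.1, g.code.2.2]))

/-- A list of straight-line programs as a bit string: the number of programs, and then for each
gate the index of its program, its type and its operands. -/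
def encSys (l : List (List Gate)) : List Bool :=
  encNums (l.length :: (List.range l.length).flatMap (fun j => (l.getD j []).flatMap
    (fun g => [j, g.code.1, g.code.2.1, g.code.2.2])))

/-- A pair of bit strings as a bit string. -/
def encPair (p : List Bool × List Bool) : List Bool :=
  p.1.flatMap (fun b => [true, b]) ++ false :: p.2

/-! ### Reductions and classes -/

/-- Polynomial-time many-one reducibility of languages. -/
def Red (L L' : List Bool → Prop) : Prop :=
  ∃ f : List Bool → List Bool,
    Nonempty (TM2ComputableInPolyTime (fun s : List Bool => s) (fun s : List Bool => s) f) ∧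
      ∀ x, L x ↔ L' (f x)

/-- The language of the codes of the instances which satisfy `P`. -/
def Lang {α : Type} (ea : α → List Bool) (P : α → Prop) : List Bool → Prop :=
  fun s => ∃ a, s = ea a ∧ P a

/-- The language ROOT. -/
def ROOTL : List Bool → Prop := Lang encProg ROOT

/-- The language TRI. -/
def TRIL : List Bool → Prop := Lang encSys TRI

/-- Nondeterministic polynomial time with one real guess: `x ∈ L` iff there are a string `w` of
polynomial length and a real number `z` such that the machine accepts `(x, w)`, the programs
in the list `E (x, w)` vanish at `z` and the programs in the list `P (x, w)` are positive at `z`. -/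
def OneReal (L : List Bool → Prop) : Prop :=
  ∃ (p : Polynomial ℕ) (R : List Bool × List Bool → Bool)
    (E P : List Bool × List Bool → List (List Gate)),
    Nonempty (TM2ComputableInPolyTime encPair (fun b : Bool => [b]) R) ∧
    Nonempty (TM2ComputableInPolyTime encPair encSys E) ∧
    Nonempty (TM2ComputableInPolyTime encPair encSys P) ∧
    ∀ x, L x ↔ ∃ w : List Bool, w.length ≤ p.eval x.length ∧ R (x, w) = true ∧
      ∃ z : ℝ, (∀ q ∈ E (x, w), value (fun _ => z) q = 0) ∧
        ∀ q ∈ P (x, w), 0 < value (fun _ => z) q

/-- `NP` with an oracle for PosSLP: `x ∈ L` iff there is a string `w` of polynomial length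
(the guesses of the machine and the answers of the oracle) such that the machine accepts
`(x, w)`, the queries `Y (x, w)` with the answer yes satisfy PosSLP, and the queries `Z (x, w)`
with the answer no do not satisfy PosSLP. -/
def NPPosSLP (L : List Bool → Prop) : Prop :=
  ∃ (p : Polynomial ℕ) (R : List Bool × List Bool → Bool)
    (Y Z : List Bool × List Bool → List (List Gate)),
    Nonempty (TM2ComputableInPolyTime encPair (fun b : Bool => [b]) R) ∧
    Nonempty (TM2ComputableInPolyTime encPair encSys Y) ∧
    Nonempty (TM2ComputableInPolyTime encPair encSys Z) ∧
    ∀ x, L x ↔ ∃ w : List Bool, w.length ≤ p.eval x.length ∧ R (x, w) = true ∧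
      (∀ q ∈ Y (x, w), PosSLP q) ∧ ∀ q ∈ Z (x, w), ¬ PosSLP q

/-- The class `NP`. -/
def InNP (L : List Bool → Prop) : Prop :=
  ∃ (p : Polynomial ℕ) (R : List Bool × List Bool → Bool),
    Nonempty (TM2ComputableInPolyTime encPair (fun b : Bool => [b]) R) ∧
    ∀ x, L x ↔ ∃ w : List Bool, w.length ≤ p.eval x.length ∧ R (x, w) = true

end Pool.Agent.Work.MP_859ada_lc
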